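import Pool.Agent.H.MP_a2a261_an.C

namespace Pool.Agent.Results.MP_a2a261_an.No
open Pool.Agent.H.MP_a2a261_an Pool.Agent.H.MP_a2a261_an.Defs Pool.Agent.H.MP_e277cf_an.Defs

theorem result : ∃ Ω Ω' : Set ℂ, KConn 2 Ω ∧ KConn 2 Ω' ∧ Bornology.IsBounded Ω ∧
    Bornology.IsBounded Ω' ∧ NoPt Ω ∧ NoPt Ω' ∧ ∀ ε₀ > (0 : ℝ), ∃ ε ∈ Set.Ioo 0 ε₀, ∃ h A,
      Hom Ω (flat ε '' Ω') h ∧ W12 Ω h A ∧ En Ω A = EH Ω (flat ε '' Ω') :=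
  ⟨_, _, k1.1, k2.1, Metric.isBounded_ball.subset Set.sdiff_subset,
    (G_bdd 1).subset Set.sdiff_subset, k1.2, k2.2, fun _ h => main h⟩

end Pool.Agent.Results.MP_a2a261_an.No
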